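import Mathlib

/-!
# Rectangles of total area `3` and sides at most `1` cover the unit square by translations

A countable family of axis-parallel rectangles with widths at most `p`, heights at most `q` and
total area at least `A B + A q + p B` can be translated so as to cover an `A × B` rectangle.

The rectangles are put into rows in the order of decreasing heights (a row is closed when its
total width is at least `A`). If `l 1 ≥ l 2 ≥ ...` are the heights of the rows, the area of the
`k`-th row is at most `A l (k - 1) + p l k` (with `l 0 = q`): all its rectangles but the last one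
have a total width at most `A` and heights at most `l (k - 1)`, and the last one has the height
`l k`. So the total area is at most `A q + (A + p) ∑ l k`, and hence `∑ l k ≥ B`. For infinite
families the heights may accumulate; a row is then an initial segment with respect to the
order of decreasing heights.
-/

set_option autoImplicit false

namespace Pool.Agent.L7h37.RectanglesCover

open Set MeasureTheory
open scoped ENNReal NNReal

/-- The rectangle `[0, a] × [0, b]`. -/
def rect (a b : ℝ) : Set (ℝ × ℝ) := Icc 0 a ×ˢ Icc 0 b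

/-- Some translates of the rectangles `[0, a i] × [0, b i]` cover the rectangle
`[0, A] × [0, B]`. -/
def Covers {ι : Type*} (a b : ι → ℝ) (A B : ℝ) : Prop :=
  ∃ v : ι → ℝ × ℝ, rect A B ⊆ ⋃ i, (fun z => z + v i) '' rect (a i) (b i)

section rows

variable {ι : Type*} [MeasurableSpace ι] [DiscreteMeasurableSpace ι] [Countable ι]

/-- The measure on the index set with the weights `w`. -/
noncomputable def mu (w : ι → ℝ≥0) : Measure ι :=
  Measure.count.withDensity (fun i => (w i : ℝ≥0∞))

lemma mu_singleton (w : ι → ℝ≥0) (i : ι) : mu w {i} = w i := by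
  unfold mu
  rw [withDensity_apply _ (MeasurableSet.of_discrete), lintegral_singleton,
    Measure.count_singleton, mul_one]

omit [Countable ι] in
lemma ms (s : Set ι) : MeasurableSet s := MeasurableSet.of_discrete

lemma mu_univ (w : ι → ℝ≥0) : mu w univ = ∑' i, (w i : ℝ≥0∞) := by
  unfold mu
  rw [withDensity_apply _ (ms _), Measure.restrict_univ, lintegral_count]

/-- Intervals of total length at least `A` can be translated so as to cover `[0, A]`. -/
lemma intervals (w : ι → ℝ≥0) (R : Set ι) (A : ℝ≥0) (hA : 0 < A) (h : (A : ℝ≥0∞) ≤ mu w R) :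
    ∃ X : ι → ℝ, ∀ x ∈ Icc (0 : ℝ) A, ∃ i ∈ R, 0 < w i ∧ X i ≤ x ∧ x ≤ X i + w i := by
  classical
  obtain ⟨e, he⟩ := exists_injective_nat ι
  -- an interval of positive length
  obtain ⟨i0, hi0R, hi0⟩ : ∃ i ∈ R, 0 < w i := by
    by_contra hcon
    push Not at hcon
    have h0 : mu w R ≤ 0 := by
      unfold mu
      rw [withDensity_apply _ (ms R)]
      calc ∫⁻ i in R, (w i : ℝ≥0∞) ∂Measure.count ≤ ∫⁻ _ in R, (0 : ℝ≥0∞) ∂Measure.count :=
            setLIntegral_mono' (ms R) (fun i hi => by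
              have := hcon i hi
              exact_mod_cast this)
        _ = 0 := by simp
    have : (A : ℝ≥0∞) = 0 := le_antisymm (h.trans h0) bot_le
    exact hA.ne' (by exact_mod_cast this)
  set R' : Set ι := R \ {i0} with hR'
  set T : ℕ → Set ι := fun n => {j | j ∈ R' ∧ e j < n} with hT
  have hTstep : ∀ n, T (n + 1) = T n ∪ {j | j ∈ R' ∧ e j = n} := by
    intro n
    ext j
    simp only [hT, mem_union]
    constructor
    · rintro ⟨h1, h2⟩
      rcases Nat.lt_succ_iff_lt_or_eq.1 h2 with h3 | h3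
      · exact Or.inl ⟨h1, h3⟩
      · exact Or.inr ⟨h1, h3⟩
    · rintro (⟨h1, h2⟩ | ⟨h1, h2⟩)
      · exact ⟨h1, by omega⟩
      · exact ⟨h1, by omega⟩
  have hT0 : T 0 = ∅ := by
    ext j
    simp [hT]
  have hempty_or : ∀ n, ({j | j ∈ R' ∧ e j = n} = (∅ : Set ι)) ∨
      ∃ i ∈ R', e i = n ∧ ({j | j ∈ R' ∧ e j = n} : Set ι) = {i} := by
    intro n
    by_cases hn : ∃ i ∈ R', e i = n
    · obtain ⟨i, hi, hin⟩ := hn
      right
      refine ⟨i, hi, hin, ?_⟩
      ext j
      constructor
      · rintro ⟨-, h2⟩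
        exact he (h2.trans hin.symm)
      · rintro rfl
        exact ⟨hi, hin⟩
    · left
      ext j
      constructor
      · rintro ⟨h1, h2⟩
        exact hn ⟨j, h1, h2⟩
      · intro h; exact absurd h (Set.notMem_empty _)
  have hTfin : ∀ n, mu w (T n) ≠ ⊤ := by
    intro n
    induction n with
    | zero => rw [hT0, measure_empty]; exact ENNReal.zero_ne_top
    | succ n ih =>
      rw [hTstep]
      refine ne_top_of_le_ne_top ?_ (measure_union_le _ _)
      rcases hempty_or n with h1 | ⟨i, -, -, h1⟩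
      · rw [h1, measure_empty, add_zero]; exact ih
      · rw [h1, mu_singleton]; exact ENNReal.add_ne_top.2 ⟨ih, ENNReal.coe_ne_top⟩
  refine ⟨fun i => if i = i0 then (A : ℝ) - w i0 else (mu w (T (e i))).toReal, fun x hx => ?_⟩
  by_cases hx1 : (A : ℝ) - w i0 ≤ x
  · refine ⟨i0, hi0R, hi0, ?_, ?_⟩
    · simpa using hx1
    · simpa using hx.2
  · push Not at hx1
    -- some partial sum exceeds `x`
    have hex : ∃ n, ENNReal.ofReal x < mu w (T n) := by
      by_contra hcon
      push Not at hcon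
      have hmono : Monotone T := by
        intro m n hmn j hj
        exact ⟨hj.1, lt_of_lt_of_le hj.2 hmn⟩
      have hUn : ⋃ n, T n = R' := by
        ext j
        rw [mem_iUnion]
        constructor
        · rintro ⟨n, hn⟩; exact hn.1
        · intro hj; exact ⟨e j + 1, hj, Nat.lt_succ_self _⟩
      have hle : mu w R' ≤ ENNReal.ofReal x := by
        rw [← hUn, hmono.measure_iUnion]
        exact iSup_le hcon
      have h2 : mu w R ≤ w i0 + ENNReal.ofReal x := by
        have : R ⊆ {i0} ∪ R' := by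
          intro j hj
          by_cases hh : j = i0
          · exact Or.inl hh
          · exact Or.inr ⟨hj, hh⟩
        refine (measure_mono this).trans ((measure_union_le _ _).trans ?_)
        rw [mu_singleton]
        gcongr
      have h3 : (A : ℝ≥0∞) ≤ w i0 + ENNReal.ofReal x := h.trans h2
      have h4 : (A : ℝ) ≤ w i0 + x := by
        have h5 : ENNReal.ofReal (A : ℝ) ≤ ENNReal.ofReal ((w i0 : ℝ) + x) := by
          rw [ENNReal.ofReal_add (NNReal.coe_nonneg _) hx.1, ENNReal.ofReal_coe_nnreal,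
            ENNReal.ofReal_coe_nnreal]
          exact h3
        exact (ENNReal.ofReal_le_ofReal_iff (by have := hx.1; positivity)).1 h5
      linarith
    obtain ⟨n, hn, hmin⟩ : ∃ n, ENNReal.ofReal x < mu w (T n) ∧
        ∀ m < n, mu w (T m) ≤ ENNReal.ofReal x :=
      ⟨Nat.find hex, Nat.find_spec hex, fun m hm => not_lt.1 (Nat.find_min hex hm)⟩
    have hn0 : n ≠ 0 := by
      rintro rfl
      rw [hT0, measure_empty] at hn
      exact not_lt_bot hn
    obtain ⟨k, rfl⟩ := Nat.exists_eq_succ_of_ne_zero hn0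
    have hk := hmin k (Nat.lt_succ_self k)
    rw [Nat.succ_eq_add_one, hTstep] at hn
    rcases hempty_or k with h1 | ⟨i, hi, hik, h1⟩
    · rw [h1, Set.union_empty] at hn
      exact absurd hn (not_lt.2 hk)
    · rw [h1] at hn
      have hn2 := hn.trans_le (measure_union_le _ _)
      rw [mu_singleton] at hn2
      have hine : i ≠ i0 := hi.2
      have hwi : 0 < w i := by
        rw [pos_iff_ne_zero]
        intro h0
        rw [h0, ENNReal.coe_zero, add_zero] at hn2
        exact absurd hn2 (not_lt.2 hk)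
      refine ⟨i, hi.1, hwi, ?_, ?_⟩
      · simp only [hine, if_false, hik]
        have := ENNReal.toReal_mono ENNReal.ofReal_ne_top hk
        rwa [ENNReal.toReal_ofReal hx.1] at this
      · simp only [hine, if_false, hik]
        have := ENNReal.toReal_mono (ENNReal.add_ne_top.2 ⟨hTfin k, ENNReal.coe_ne_top⟩) hn2.le
        rw [ENNReal.toReal_ofReal hx.1, ENNReal.toReal_add (hTfin k) ENNReal.coe_ne_top] at this
        simpa using this

/-- The measure with the weights `w i * h i`. -/
noncomputable def nu (w h : ι → ℝ≥0) : Measure ι := (mu w).withDensity (fun i => (h i : ℝ≥0∞))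

omit [Countable ι] in
lemma nu_le (w h : ι → ℝ≥0) (R : Set ι) (H : ℝ≥0) (hH : ∀ i ∈ R, h i ≤ H) :
    nu w h R ≤ H * mu w R := by
  unfold nu
  rw [withDensity_apply _ (ms R)]
  calc ∫⁻ i in R, (h i : ℝ≥0∞) ∂(mu w) ≤ ∫⁻ _ in R, (H : ℝ≥0∞) ∂(mu w) :=
        setLIntegral_mono' (ms R) (fun i hi => by exact_mod_cast hH i hi)
    _ = H * mu w R := by rw [setLIntegral_const]

omit [Countable ι] in
lemma le_nu (w h : ι → ℝ≥0) (R : Set ι) (H : ℝ≥0) (hH : ∀ i ∈ R, H ≤ h i) :
    H * mu w R ≤ nu w h R := by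
  unfold nu
  rw [withDensity_apply _ (ms R)]
  calc H * mu w R = ∫⁻ _ in R, (H : ℝ≥0∞) ∂(mu w) := by rw [setLIntegral_const]
    _ ≤ ∫⁻ i in R, (h i : ℝ≥0∞) ∂(mu w) :=
        setLIntegral_mono' (ms R) (fun i hi => by exact_mod_cast hH i hi)

lemma nu_singleton (w h : ι → ℝ≥0) (i : ι) : nu w h {i} = w i * h i := by
  unfold nu
  rw [withDensity_apply _ (ms _), lintegral_singleton, mu_singleton, mul_comm]

lemma nu_univ (w h : ι → ℝ≥0) : nu w h univ = ∑' i, (w i : ℝ≥0∞) * h i := by
  unfold nu mu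
  rw [withDensity_apply _ (ms _), Measure.restrict_univ,
    lintegral_withDensity_eq_lintegral_mul _ (measurable_of_countable _)
      (measurable_of_countable _), lintegral_count]
  rfl

omit [MeasurableSpace ι] [DiscreteMeasurableSpace ι] [Countable ι] in
lemma exists_min_of_finite (B : ι → ι → Prop) (h1 : ∀ i j k, B i j → B j k → B i k)
    (h2 : ∀ i, ¬ B i i) {s : Set ι} (hs : s.Finite) (hne : s.Nonempty) :
    ∃ j ∈ s, ∀ k ∈ s, ¬ B k j := by
  have hwf : WellFounded (fun a b : s => B a b) := by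
    have : Finite s := hs
    have : IsTrans s (fun a b => B a b) := ⟨fun a b c h3 h4 => h1 _ _ _ h3 h4⟩
    have : Std.Irrefl (fun a b : s => B a b) := ⟨fun a => h2 _⟩
    exact Finite.wellFounded_of_trans_of_irrefl _
  obtain ⟨j, -, hj⟩ := hwf.has_min Set.univ ⟨⟨hne.some, hne.some_mem⟩, trivial⟩
  exact ⟨j, j.2, fun k hk => hj ⟨k, hk⟩ trivial⟩

/-- The next row. -/
lemma row (w h : ι → ℝ≥0) (hpos : ∀ i, 0 < h i) (hfin : nu w h univ ≠ ⊤) (A p : ℝ≥0) (hA : 0 < A)
    (hp : ∀ i, w i ≤ p) (J : Set ι) (H : ℝ≥0) (hH : ∀ i ∈ J, h i ≤ H) :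
    ∃ (R : Set ι) (l : ℝ≥0), R ⊆ J ∧ (∀ i ∈ R, l ≤ h i) ∧ (∀ i ∈ J \ R, h i ≤ l) ∧
      (0 < l → (A : ℝ≥0∞) ≤ mu w R) ∧ nu w h R ≤ H * A + p * l := by
  classical
  rcases lt_or_ge (mu w J) A with hJ | hJ
  · -- an incomplete row
    refine ⟨J, 0, subset_rfl, fun i _ => bot_le, fun i hi => absurd hi.1 hi.2,
      fun h0 => absurd h0 (lt_irrefl _), ?_⟩
    calc nu w h J ≤ H * mu w J := nu_le w h J H hH
      _ ≤ H * A := by gcongr
      _ ≤ H * A + p * (0 : ℝ≥0) := le_self_add
  obtain ⟨e, he⟩ := exists_injective_nat ι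
  -- the order of decreasing heights
  set B : ι → ι → Prop := fun j i => h i < h j ∨ (h i = h j ∧ e j < e i) with hB
  have hBtrans : ∀ i j k, B i j → B j k → B i k := by
    intro i j k h1 h2
    simp only [hB] at h1 h2 ⊢
    rcases h1 with h1 | ⟨h1, h1'⟩ <;> rcases h2 with h2 | ⟨h2, h2'⟩
    · exact Or.inl (h2.trans h1)
    · exact Or.inl (h2 ▸ h1)
    · exact Or.inl (h1 ▸ h2)
    · exact Or.inr ⟨h2.trans h1, h1'.trans h2'⟩
  have hBtri : ∀ i j, i ≠ j → B i j ∨ B j i := by
    intro i j hij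
    simp only [hB]
    rcases lt_trichotomy (h i) (h j) with h1 | h1 | h1
    · exact Or.inr (Or.inl h1)
    · rcases lt_trichotomy (e i) (e j) with h2 | h2 | h2
      · exact Or.inl (Or.inr ⟨h1.symm, h2⟩)
      · exact absurd (he h2) hij
      · exact Or.inr (Or.inr ⟨h1, h2⟩)
    · exact Or.inl (Or.inl h1)
  have hBirr : ∀ i, ¬ B i i := by
    intro i h1
    simp only [hB] at h1
    rcases h1 with h1 | ⟨-, h1⟩
    · exact lt_irrefl _ h1
    · exact lt_irrefl _ h1
  have hBle : ∀ i j, B i j → h j ≤ h i := by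
    intro i j h1
    simp only [hB] at h1
    rcases h1 with h1 | ⟨h1, -⟩
    · exact h1.le
    · exact h1.le
  -- the elements of `J` before `i`
  set P : ι → Set ι := fun i => {j | j ∈ J ∧ B j i} with hP
  have hPmono : ∀ i j, B j i → P j ⊆ P i := fun i j h1 k hk => ⟨hk.1, hBtrans _ _ _ hk.2 h1⟩
  set R : Set ι := {i | i ∈ J ∧ mu w (P i) < A} with hR
  have hRJ : R ⊆ J := fun i hi => hi.1
  have hRinit : ∀ i ∈ R, ∀ j ∈ J, B j i → j ∈ R := fun i hi j hj hji =>
    ⟨hj, (measure_mono (hPmono i j hji)).trans_lt hi.2⟩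
  -- `R` is wide enough
  have hRA : (A : ℝ≥0∞) ≤ mu w R := by
    by_contra hlt
    push Not at hlt
    have hne : (J \ R).Nonempty := by
      rw [Set.nonempty_iff_ne_empty]
      intro hemp
      have : J ⊆ R := Set.sdiff_eq_empty.1 hemp
      exact absurd (hJ.trans (measure_mono this)) (not_le.2 hlt)
    obtain ⟨j0, hj0J, hj0R⟩ := hne
    set D : Set ι := P j0 \ R with hD
    have hDfin : mu w D ≠ ⊤ := by
      intro htop
      have h1 : (h j0 : ℝ≥0∞) * mu w D ≤ nu w h D :=
        le_nu w h D (h j0) (fun i hi => hBle _ _ hi.1.2)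
      rw [htop, ENNReal.mul_top (by exact_mod_cast (hpos j0).ne')] at h1
      exact hfin (top_le_iff.1 (h1.trans (measure_mono (Set.subset_univ _))))
    -- tails of `D`
    set F : ℕ → Set ι := fun n => {i | i ∈ D ∧ n ≤ e i} with hF
    have hFanti : Antitone F := fun m n hmn i hi => ⟨hi.1, hmn.trans hi.2⟩
    have hFint : ⋂ n, F n = ∅ := by
      ext i
      simp only [mem_iInter, Set.mem_empty_iff_false, iff_false, not_forall]
      refine ⟨e i + 1, fun hi => ?_⟩
      exact absurd hi.2 (by omega)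
    have hlim := tendsto_measure_iInter_atTop (μ := mu w) (fun n => (ms (F n)).nullMeasurableSet)
      hFanti ⟨0, ne_top_of_le_ne_top hDfin (measure_mono fun i hi => hi.1)⟩
    rw [hFint, measure_empty] at hlim
    have hgap : 0 < (A : ℝ≥0∞) - mu w R := tsub_pos_of_lt hlt
    have hgap2 : (A : ℝ≥0∞) - mu w R ≠ ⊤ := ne_top_of_le_ne_top ENNReal.coe_ne_top tsub_le_self
    obtain ⟨n, hn⟩ := (ENNReal.tendsto_nhds_zero.1 hlim (((A : ℝ≥0∞) - mu w R) / 2)
      (ENNReal.half_pos hgap.ne')).exists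
    -- among `j0` and the elements of `D` outside the tail, take the first one
    have hfinset : {i | i = j0 ∨ (i ∈ D ∧ e i < n)}.Finite := by
      refine ((Set.finite_singleton j0).union
        ((Set.finite_Iio n).preimage he.injOn)).subset ?_
      rintro i (rfl | ⟨-, hi⟩)
      · exact Or.inl rfl
      · exact Or.inr hi
    obtain ⟨j, hj, hjmin⟩ := exists_min_of_finite B hBtrans hBirr hfinset ⟨j0, Or.inl rfl⟩
    have hjJ : j ∈ J := by
      rcases hj with rfl | ⟨hj, -⟩
      · exact hj0J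
      · exact hj.1.1
    have hjR : j ∉ R := by
      rcases hj with rfl | ⟨hj, -⟩
      · exact hj0R
      · exact hj.2
    have hPj : P j ⊆ R ∪ F n := by
      intro k hk
      by_cases hkR : k ∈ R
      · exact Or.inl hkR
      · right
        have hkD : k ∈ D := by
          refine ⟨⟨hk.1, ?_⟩, hkR⟩
          rcases hj with rfl | ⟨hj, -⟩
          · exact hk.2
          · exact hBtrans _ _ _ hk.2 hj.1.2
        refine ⟨hkD, ?_⟩
        by_contra hlt'
        push Not at hlt'
        exact hjmin k (Or.inr ⟨hkD, hlt'⟩) hk.2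
    apply hjR
    refine ⟨hjJ, ?_⟩
    calc mu w (P j) ≤ mu w R + mu w (F n) := (measure_mono hPj).trans (measure_union_le _ _)
      _ ≤ mu w R + ((A : ℝ≥0∞) - mu w R) / 2 := by gcongr; exact hn
      _ < mu w R + ((A : ℝ≥0∞) - mu w R) :=
        ENNReal.add_lt_add_left hlt.ne_top (ENNReal.half_lt_self hgap.ne' hgap2)
      _ = A := add_tsub_cancel_of_le hlt.le
  have hRne : R.Nonempty := by
    rw [Set.nonempty_iff_ne_empty]
    intro hemp
    rw [hemp, measure_empty] at hRA
    have : (A : ℝ≥0∞) = 0 := le_antisymm hRA bot_le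
    exact hA.ne' (by exact_mod_cast this)
  by_cases hlast : ∃ i ∈ R, ∀ j ∈ R, j ≠ i → B j i
  · obtain ⟨i, hi, hil⟩ := hlast
    refine ⟨R, h i, hRJ, ?_, ?_, fun _ => hRA, ?_⟩
    · intro j hj
      by_cases hji : j = i
      · rw [hji]
      · exact hBle _ _ (hil j hj hji)
    · rintro j ⟨hjJ, hjR⟩
      have hne : j ≠ i := fun hji => hjR (hji ▸ hi)
      rcases hBtri j i hne with h1 | h1
      · exact absurd (hRinit i hi j hjJ h1) hjR
      · exact hBle _ _ h1
    · have hsub : R ⊆ P i ∪ {i} := by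
        intro j hj
        by_cases hji : j = i
        · exact Or.inr hji
        · exact Or.inl ⟨hj.1, hil j hj hji⟩
      calc nu w h R ≤ nu w h (P i) + nu w h {i} :=
            (measure_mono hsub).trans (measure_union_le _ _)
        _ ≤ H * mu w (P i) + w i * h i := by
            rw [nu_singleton]
            gcongr
            exact nu_le w h (P i) H (fun j hj => hH j hj.1)
        _ ≤ H * A + p * h i := by
            have h1 : mu w (P i) ≤ A := hi.2.le
            have h2 : (w i : ℝ≥0∞) ≤ p := by exact_mod_cast hp i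
            gcongr
  · push Not at hlast
    have hRA' : mu w R ≤ A := by
      have hmono : Monotone (fun n : ℕ => {i | i ∈ R ∧ e i < n}) := by
        intro m n hmn i hi
        exact ⟨hi.1, lt_of_lt_of_le hi.2 hmn⟩
      have hUn : ⋃ n : ℕ, {i | i ∈ R ∧ e i < n} = R := by
        ext i
        rw [mem_iUnion]
        constructor
        · rintro ⟨n, hn⟩; exact hn.1
        · intro hi; exact ⟨e i + 1, hi, Nat.lt_succ_self _⟩
      rw [← hUn, hmono.measure_iUnion]
      apply iSup_le
      intro n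
      have hfinset : {i | i ∈ R ∧ e i < n}.Finite :=
        ((Set.finite_Iio n).preimage he.injOn).subset fun i hi => hi.2
      rcases Set.eq_empty_or_nonempty {i | i ∈ R ∧ e i < n} with h0 | h0
      · rw [h0, measure_empty]; exact bot_le
      · obtain ⟨j, hj, hjmax⟩ := exists_min_of_finite (fun a b => B b a)
          (fun a b c h1 h2 => hBtrans _ _ _ h2 h1) hBirr hfinset h0
        obtain ⟨k, hk, hkj, hk2⟩ := hlast j hj.1
        have hjk : B j k := by
          rcases hBtri j k hkj.symm with h1 | h1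
          · exact h1
          · exact absurd h1 hk2
        have hsub : {i | i ∈ R ∧ e i < n} ⊆ P k := by
          intro i hi
          refine ⟨hi.1.1, ?_⟩
          by_cases hij : i = j
          · rw [hij]; exact hjk
          · rcases hBtri i j hij with h1 | h1
            · exact hBtrans _ _ _ h1 hjk
            · exact absurd h1 (hjmax i hi)
        exact (measure_mono hsub).trans hk.2.le
    refine ⟨R, sInf (h '' R), hRJ, ?_, ?_, fun _ => hRA, ?_⟩
    · intro i hi
      exact csInf_le' ⟨i, hi, rfl⟩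
    · rintro j ⟨hjJ, hjR⟩
      apply le_csInf (hRne.image h)
      rintro _ ⟨i, hi, rfl⟩
      have hne : j ≠ i := fun hji => hjR (hji ▸ hi)
      rcases hBtri j i hne with h1 | h1
      · exact absurd (hRinit i hi j hjJ h1) hjR
      · exact hBle _ _ h1
    · calc nu w h R ≤ H * mu w R := nu_le w h R H (fun j hj => hH j hj.1)
        _ ≤ H * A := by gcongr
        _ ≤ H * A + p * (sInf (h '' R) : ℝ≥0) := le_self_add

/-- The rows. -/
lemma rows (w h : ι → ℝ≥0) (hpos : ∀ i, 0 < h i) (hfin : nu w h univ ≠ ⊤) (A p q : ℝ≥0)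
    (hA : 0 < A) (hp : ∀ i, w i ≤ p) (hq : ∀ i, h i ≤ q) :
    ∃ (R : ℕ → Set ι) (l : ℕ → ℝ≥0), (∀ k m, k ≠ m → Disjoint (R k) (R m)) ∧
      (∀ k, ∀ i ∈ R k, l k ≤ h i) ∧ (∀ k, 0 < l k → (A : ℝ≥0∞) ≤ mu w (R k)) ∧
      (∀ k, ∀ i, (∀ m ≤ k, i ∉ R m) → h i ≤ l k) ∧
      nu w h (R 0) ≤ q * A + p * l 0 ∧ ∀ k, nu w h (R (k + 1)) ≤ l k * A + p * l (k + 1) := by
  classical
  -- the state: the remaining rectangles and a bound for their heights
  have hstep : ∀ S : {S : Set ι × ℝ≥0 // ∀ i ∈ S.1, h i ≤ S.2}, ∃ (R : Set ι) (l : ℝ≥0),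
      R ⊆ S.1.1 ∧ (∀ i ∈ R, l ≤ h i) ∧ (∀ i ∈ S.1.1 \ R, h i ≤ l) ∧
      (0 < l → (A : ℝ≥0∞) ≤ mu w R) ∧ nu w h R ≤ S.1.2 * A + p * l :=
    fun S => row w h hpos hfin A p hA hp S.1.1 S.1.2 S.2
  choose Rf lf h1 h2 h3 h4 h5 using hstep
  let st : ℕ → {S : Set ι × ℝ≥0 // ∀ i ∈ S.1, h i ≤ S.2} := fun n =>
    Nat.rec ⟨(Set.univ, q), fun i _ => hq i⟩ (fun _ S => ⟨(S.1.1 \ Rf S, lf S), h3 S⟩) n
  have hst0 : st 0 = ⟨(Set.univ, q), fun i _ => hq i⟩ := rfl
  have hst1 : ∀ n, (st (n + 1)).1 = ((st n).1.1 \ Rf (st n), lf (st n)) := fun n => rfl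
  have hanti : ∀ m n, m ≤ n → (st n).1.1 ⊆ (st m).1.1 := by
    intro m n hmn
    induction hmn with
    | refl => exact subset_rfl
    | step _ ih =>
      refine Set.Subset.trans ?_ ih
      rw [hst1]
      exact Set.sdiff_subset
  have hdisj : ∀ m n, m < n → Disjoint (Rf (st m)) (Rf (st n)) := by
    intro m n hmn
    rw [Set.disjoint_left]
    intro i hi hi2
    have h6 := hanti (m + 1) n hmn (h1 (st n) hi2)
    rw [hst1] at h6
    exact h6.2 hi
  refine ⟨fun n => Rf (st n), fun n => lf (st n), ?_, fun k => h2 _, fun k => h4 _, ?_, ?_, ?_⟩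
  · intro k m hkm
    rcases lt_or_gt_of_ne hkm with h6 | h6
    · exact hdisj _ _ h6
    · exact (hdisj _ _ h6).symm
  · intro k i hi
    have hmem : ∀ n ≤ k, i ∈ (st n).1.1 := by
      intro n
      induction n with
      | zero => intro _; rw [hst0]; trivial
      | succ n ih =>
        intro hn
        rw [hst1]
        exact ⟨ih (by omega), hi n (by omega)⟩
    exact h3 (st k) i ⟨hmem k le_rfl, hi k le_rfl⟩
  · exact h5 (st 0)
  · intro k
    exact h5 (st (k + 1))

/-- The theorem for the discrete index space. -/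
lemma covers (w h : ι → ℝ≥0) (hpos : ∀ i, 0 < h i) (A B p q : ℝ≥0) (hA : 0 < A) (hB : 0 < B)
    (hp : ∀ i, w i ≤ p) (hq : ∀ i, h i ≤ q) (hfin : nu w h univ ≠ ⊤)
    (hbig : (A : ℝ≥0∞) * B + A * q + p * B ≤ nu w h univ) :
    Covers (fun i => (w i : ℝ)) (fun i => (h i : ℝ)) A B := by
  classical
  obtain ⟨R, l, hdisj, hlR, hRA, hrest, h0, h1⟩ := rows w h hpos hfin A p q hA hp hq
  -- the total height of the rows
  have hsum : (B : ℝ≥0∞) ≤ mu l univ := by
    by_contra hlt
    push Not at hlt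
    rw [mu_univ] at hlt
    have hcov : (Set.univ : Set ι) ⊆ ⋃ k, R k := by
      intro i _
      have htend : Filter.Tendsto (fun k => (l k : ℝ≥0∞)) Filter.atTop (nhds 0) :=
        ENNReal.tendsto_atTop_zero_of_tsum_ne_top hlt.ne_top
      have hhi : (0 : ℝ≥0∞) < h i := by exact_mod_cast hpos i
      obtain ⟨k, hk⟩ := (htend.eventually (gt_mem_nhds hhi)).exists
      by_contra hcon
      rw [mem_iUnion] at hcon
      push Not at hcon
      have := hrest k i (fun m _ => hcon m)
      have hk' : l k < h i := by exact_mod_cast hk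
      exact absurd this (not_le.2 hk')
    have hle : nu w h univ ≤ ∑' k, nu w h (R k) :=
      (measure_mono hcov).trans (measure_iUnion_le _)
    have hsplit : ∑' k, nu w h (R k) = nu w h (R 0) + ∑' k, nu w h (R (k + 1)) :=
      tsum_eq_zero_add' ENNReal.summable
    have hl : ∑' k, (l k : ℝ≥0∞) = l 0 + ∑' k, (l (k + 1) : ℝ≥0∞) :=
      tsum_eq_zero_add' ENNReal.summable
    have h2 : ∑' k, nu w h (R (k + 1)) ≤
        (∑' k, (l k : ℝ≥0∞)) * A + p * ∑' k, (l (k + 1) : ℝ≥0∞) := by
      rw [← ENNReal.tsum_mul_right, ← ENNReal.tsum_mul_left, ← ENNReal.tsum_add]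
      exact ENNReal.tsum_le_tsum h1
    have h3 : nu w h univ ≤ q * A + (p + A) * ∑' k, (l k : ℝ≥0∞) := by
      calc nu w h univ ≤ nu w h (R 0) + ∑' k, nu w h (R (k + 1)) := hle.trans hsplit.le
        _ ≤ (q * A + p * l 0) + ((∑' k, (l k : ℝ≥0∞)) * A + p * ∑' k, (l (k + 1) : ℝ≥0∞)) := by
            gcongr
        _ = q * A + (p * (l 0 + ∑' k, (l (k + 1) : ℝ≥0∞)) + A * ∑' k, (l k : ℝ≥0∞)) := by
            ring
        _ = q * A + (p + A) * ∑' k, (l k : ℝ≥0∞) := by
            rw [← hl]; ring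
    have hpA : ((p : ℝ≥0∞) + A) ≠ 0 := by
      intro h
      have := (add_eq_zero.1 h).2
      exact hA.ne' (by exact_mod_cast this)
    have hpA' : ((p : ℝ≥0∞) + A) ≠ ⊤ := ENNReal.add_ne_top.2 ⟨ENNReal.coe_ne_top, ENNReal.coe_ne_top⟩
    have h4 : ((p : ℝ≥0∞) + A) * ∑' k, (l k : ℝ≥0∞) < (p + A) * B :=
      (ENNReal.mul_lt_mul_iff_right hpA hpA').2 hlt
    have h5 : (q : ℝ≥0∞) * A + (p + A) * ∑' k, (l k : ℝ≥0∞) < q * A + (p + A) * B :=
      ENNReal.add_lt_add_left (ENNReal.mul_ne_top ENNReal.coe_ne_top ENNReal.coe_ne_top) h4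
    have h6 : (q : ℝ≥0∞) * A + (p + A) * B = A * B + A * q + p * B := by ring
    rw [h6] at h5
    exact absurd (hbig.trans h3) (not_le.2 h5)
  obtain ⟨Y, hY⟩ := intervals l Set.univ B hB hsum
  have hX : ∀ k, ∃ X : ι → ℝ, 0 < l k → ∀ x ∈ Icc (0 : ℝ) A, ∃ i ∈ R k, 0 < w i ∧
      X i ≤ x ∧ x ≤ X i + w i := by
    intro k
    by_cases hk : 0 < l k
    · obtain ⟨X, hX⟩ := intervals w (R k) A hA (hRA k hk)
      exact ⟨X, fun _ => hX⟩
    · exact ⟨0, fun h => absurd h hk⟩
  choose X hX using hX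
  let kof : ι → ℕ := fun i => if hi : ∃ k, i ∈ R k then hi.choose else 0
  have hkof : ∀ i k, i ∈ R k → kof i = k := by
    intro i k hik
    have hex : ∃ k, i ∈ R k := ⟨k, hik⟩
    have h2 : kof i = hex.choose := dif_pos hex
    rw [h2]
    by_contra hne
    exact Set.disjoint_left.1 (hdisj _ _ hne) hex.choose_spec hik
  refine ⟨fun i => (X (kof i) i, Y (kof i)), ?_⟩
  rintro ⟨x, y⟩ ⟨hx, hy⟩
  obtain ⟨k, -, hk, hk1, hk2⟩ := hY y hy
  obtain ⟨i, hi, -, hi1, hi2⟩ := hX k hk x hx
  rw [mem_iUnion]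
  refine ⟨i, (x - X k i, y - Y k), ⟨⟨?_, ?_⟩, ⟨?_, ?_⟩⟩, ?_⟩
  · simp only; linarith
  · simp only; linarith
  · simp only; linarith
  · have : (l k : ℝ) ≤ h i := by exact_mod_cast hlR k i hi
    simp only; linarith
  · change (x - X k i, y - Y k) + (X (kof i) i, Y (kof i)) = (x, y)
    rw [hkof i k hi]
    ext <;> simp

end rows

/-- 1. Moser's question: every finite or countably infinite family of rectangles
`[0, a i] × [0, b i]` with sides at most `1` and of total area `3` can be translated so as to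
cover the unit square (it is not needed that a side of length exactly `1` occurs).
2. More generally, if the widths are at most `p`, the heights at most `q`, and the total area is at
least `A B + A q + p B`, then the rectangles can be translated so as to cover `[0, A] × [0, B]`. -/
theorem rectangles_cover {ι : Type*} [Countable ι] (a b : ι → ℝ) (ha : ∀ i, 0 < a i) (hb : ∀ i, 0 < b i) :
    ((∀ i, a i ≤ 1) → (∀ i, b i ≤ 1) → HasSum (fun i => a i * b i) 3 → Covers a b 1 1) ∧
    ∀ A B p q s : ℝ, 0 < A → 0 < B → 0 ≤ p → 0 ≤ q → (∀ i, a i ≤ p) → (∀ i, b i ≤ q) →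
      HasSum (fun i => a i * b i) s → A * B + A * q + p * B ≤ s → Covers a b A B := by
  have key : ∀ A B p q s : ℝ, 0 < A → 0 < B → 0 ≤ p → 0 ≤ q → (∀ i, a i ≤ p) → (∀ i, b i ≤ q) →
      HasSum (fun i => a i * b i) s → A * B + A * q + p * B ≤ s → Covers a b A B := by
    intro A B p q s hA hB hp0 hq0 hp hq hs hbig
    let _ : MeasurableSpace ι := ⊤
    have hdisc : DiscreteMeasurableSpace ι := ⟨fun _ => trivial⟩
    have hnu : nu (fun i => (a i).toNNReal) (fun i => (b i).toNNReal) univ =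
        ENNReal.ofReal s := by
      rw [nu_univ, ← hs.tsum_eq, ENNReal.ofReal_tsum_of_nonneg
        (fun i => (mul_pos (ha i) (hb i)).le) hs.summable]
      refine tsum_congr fun i => ?_
      rw [ENNReal.ofReal_mul (ha i).le]
      rfl
    have hc := covers (ι := ι) (fun i => (a i).toNNReal) (fun i => (b i).toNNReal)
      (fun i => Real.toNNReal_pos.2 (hb i)) A.toNNReal B.toNNReal p.toNNReal q.toNNReal
      (Real.toNNReal_pos.2 hA) (Real.toNNReal_pos.2 hB)
      (fun i => Real.toNNReal_le_toNNReal (hp i)) (fun i => Real.toNNReal_le_toNNReal (hq i))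
      (by rw [hnu]; exact ENNReal.ofReal_ne_top) (by
        rw [hnu]
        change ENNReal.ofReal A * ENNReal.ofReal B + ENNReal.ofReal A * ENNReal.ofReal q +
          ENNReal.ofReal p * ENNReal.ofReal B ≤ ENNReal.ofReal s
        rw [← ENNReal.ofReal_mul hA.le, ← ENNReal.ofReal_mul hA.le,
          ← ENNReal.ofReal_mul hp0, ← ENNReal.ofReal_add (by positivity) (by positivity),
          ← ENNReal.ofReal_add (by positivity) (by positivity)]
        exact ENNReal.ofReal_le_ofReal hbig)
    simp only [Real.coe_toNNReal _ (ha _).le, Real.coe_toNNReal _ (hb _).le,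
      Real.coe_toNNReal _ hA.le, Real.coe_toNNReal _ hB.le] at hc
    exact hc
  refine ⟨fun h1 h2 hs => ?_, key⟩
  exact key 1 1 1 1 3 one_pos one_pos zero_le_one zero_le_one h1 h2 hs (by norm_num)

end Pool.Agent.L7h37.RectanglesCover
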